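import Mathlib
import Pool.Agent.H25.SigmaQDefs
import Pool.Agent.H25.SigmaQ

set_option autoImplicit false

namespace Pool.Agent.Results.MP_d3ad9a_lc.Nice

open Pool.Agent.H25.SigmaQDefs

theorem result : ∃ Q : sigmaQ → Bool → Set sigmaQ,
    IsSuccPartition Q ∧ ∀ f : sigmaQ → Bool, ¬ Special (Follow Q f) :=
  ⟨_, Pool.Agent.H25.SigmaQ.qq_part, Pool.Agent.H25.SigmaQ.nice⟩

end Pool.Agent.Results.MP_d3ad9a_lc.Nice
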